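import Pool.Agent.Q170.WD.St

set_option autoImplicit false

namespace Pool.Agent.Q96.WD

open MvPolynomial Pool.Agent.Q170.WD

open scoped nonZeroDivisors

attribute [local instance] MvPolynomial.algebraMvPolynomial

/-- the dimension is at most the Krull dimension of the quotient -/
lemma dim_le_krull (hKRULL : S_KRULL) (L : Type) [Field L] (N : ℕ) :
    ∀ (d : ℕ) (Q : Ideal (MvPolynomial (Fin N) L)), Q.IsPrime → Dim Q d →
      (d : WithBot ℕ∞) ≤ ringKrullDim (MvPolynomial (Fin N) L ⧸ Q) := by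
  intro d
  induction d with
  | zero =>
    intro Q hQ _
    have : Nontrivial (MvPolynomial (Fin N) L ⧸ Q) := Ideal.Quotient.nontrivial_iff.2 hQ.ne_top
    exact_mod_cast ringKrullDim_nonneg_of_nontrivial
  | succ d ih =>
    intro Q hQ hdim
    have hnm : ¬ Q.IsMaximal := by
      intro hmax
      let _ : Field (MvPolynomial (Fin N) L ⧸ Q) := Ideal.Quotient.field Q
      have hfin : Module.Finite L (MvPolynomial (Fin N) L ⧸ Q) :=
        finite_of_finite_type_of_isJacobsonRing L _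
      have halg : Algebra.IsAlgebraic L (MvPolynomial (Fin N) L ⧸ Q) := inferInstance
      have h0 : Algebra.trdeg L (MvPolynomial (Fin N) L ⧸ Q) = 0 := trdeg_eq_zero
      unfold Dim at hdim
      rw [h0] at hdim
      have : (0 : ℕ) = d + 1 := by exact_mod_cast hdim
      omega
    obtain ⟨m, hm, hQm⟩ := Ideal.exists_le_maximal Q hQ.ne_top
    have hlt : Q < m := lt_of_le_of_ne hQm (fun h => hnm (h ▸ hm))
    obtain ⟨f, hfm, hfQ⟩ := SetLike.exists_of_lt hlt
    have hle : Q ⊔ Ideal.span {f} ≤ m := by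
      rw [sup_le_iff, Ideal.span_singleton_le_iff_mem]
      exact ⟨hQm, hfm⟩
    have := hm.isPrime
    obtain ⟨Q1, hQ1, -⟩ := Ideal.exists_minimalPrimes_le hle
    obtain ⟨k, hk, hdim1⟩ := hKRULL L N Q f Q1 (d + 1) hQ hfQ hQ1 hdim
    obtain rfl : k = d := by omega
    have hQ1p : Q1.IsPrime := hQ1.1.1
    have hQQ1 : Q ≤ Q1 := le_sup_left.trans hQ1.1.2
    have hfQ1 : f ∈ Q1 := hQ1.1.2 (Ideal.mem_sup_right (Ideal.mem_span_singleton_self f))
    have h1 := ih Q1 hQ1p hdim1
    have : IsDomain (MvPolynomial (Fin N) L ⧸ Q) := Ideal.Quotient.isDomain Q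
    have h2 : ringKrullDim (MvPolynomial (Fin N) L ⧸ Q1) + 1 ≤
        ringKrullDim (MvPolynomial (Fin N) L ⧸ Q) := by
      apply ringKrullDim_succ_le_of_surjective (Ideal.Quotient.factor hQQ1)
        (Ideal.Quotient.factor_surjective hQQ1) (r := Ideal.Quotient.mk Q f)
      · apply mem_nonZeroDivisors_of_ne_zero
        rwa [Ne, Ideal.Quotient.eq_zero_iff_mem]
      · rw [Ideal.Quotient.factor_mk, Ideal.Quotient.eq_zero_iff_mem]
        exact hfQ1
    calc ((k + 1 : ℕ) : WithBot ℕ∞) = (k : WithBot ℕ∞) + 1 := by push_cast; rfl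
      _ ≤ ringKrullDim (MvPolynomial (Fin N) L ⧸ Q1) + 1 := by gcongr
      _ ≤ _ := h2

theorem t_BASE (hKRULL : S_KRULL) (_hDIM : S_DIM) : S_BASE := by
  intro K L _ _ _ _ N k I Q d hk hQ hIQ hdim
  have h1 := dim_le_krull hKRULL L N d Q hQ hdim
  have h2 : ringKrullDim (MvPolynomial (Fin N) L ⧸ Q) ≤ ringKrullDim (MvPolynomial (Fin N) K ⧸ I) := by
    let φ : MvPolynomial (Fin N) K →+* MvPolynomial (Fin N) L := MvPolynomial.map (algebraMap K L)
    have hφ : φ = algebraMap (MvPolynomial (Fin N) K) (MvPolynomial (Fin N) L) := rfl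
    let θ : MvPolynomial (Fin N) K ⧸ I →+* MvPolynomial (Fin N) L ⧸ Q :=
      Ideal.Quotient.lift I ((Ideal.Quotient.mk Q).comp φ) (by
        intro a ha
        rw [RingHom.comp_apply, Ideal.Quotient.eq_zero_iff_mem]
        exact hIQ (Ideal.mem_map_of_mem _ ha))
    have hθ : ∀ P : Ideal (MvPolynomial (Fin N) L ⧸ Q),
        (P.comap θ).comap (Ideal.Quotient.mk I) = (P.comap (Ideal.Quotient.mk Q)).comap φ := by
      intro P
      rw [Ideal.comap_comap, Ideal.comap_comap]
      congr 1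
    refine Order.krullDim_le_of_strictMono
      (fun P : PrimeSpectrum (MvPolynomial (Fin N) L ⧸ Q) => PrimeSpectrum.comap θ P) ?_
    intro P1 P2 hP
    have hP' : P1.asIdeal < P2.asIdeal := hP
    have hle : P1.asIdeal.comap θ ≤ P2.asIdeal.comap θ := Ideal.comap_mono hP'.le
    refine lt_of_le_of_ne hle ?_
    intro heq
    have heq' : P1.asIdeal.comap θ = P2.asIdeal.comap θ := congrArg PrimeSpectrum.asIdeal heq
    have h3 : (P1.asIdeal.comap (Ideal.Quotient.mk Q)).comap φ =
        (P2.asIdeal.comap (Ideal.Quotient.mk Q)).comap φ := by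
      rw [← hθ, ← hθ, heq']
    have h4 : P1.asIdeal.comap (Ideal.Quotient.mk Q) < P2.asIdeal.comap (Ideal.Quotient.mk Q) := by
      refine lt_of_le_of_ne (Ideal.comap_mono hP'.le) (fun h => hP'.ne ?_)
      exact Ideal.comap_injective_of_surjective _ Ideal.Quotient.mk_surjective h
    have : (P1.asIdeal.comap (Ideal.Quotient.mk Q)).IsPrime := inferInstance
    have h5 := Ideal.IsIntegral.comap_lt_comap (R := MvPolynomial (Fin N) K) h4
    exact absurd h3 h5.ne
  have h6 : (d : WithBot ℕ∞) ≤ (k : WithBot ℕ∞) := h1.trans (h2.trans hk)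
  exact_mod_cast h6

end Pool.Agent.Q96.WD
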