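import Pool.Agent.Q170.WD.St

set_option autoImplicit false

namespace Pool.Agent.Q96.WD

open MvPolynomial Pool.Agent.Q170.WD

/-- an irreducible polynomial contains a variable -/
lemma exists_var {L : Type} [Field L] {s : ℕ} {π : MvPolynomial (Fin s) L} (hπ : Irreducible π) :
    ∃ j, degreeOf j π ≠ 0 := by
  by_contra hcon
  push Not at hcon
  have h1 : π.totalDegree = 0 := by
    rw [totalDegree_eq_zero_iff]
    intro m hm x
    have := monomial_le_degreeOf x hm
    rw [hcon x] at this
    omega
  rw [totalDegree_eq_zero_iff_eq_C] at h1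
  have h2 : coeff 0 π ≠ 0 := by
    intro h
    rw [h, C_0] at h1
    exact hπ.ne_zero h1
  apply hπ.not_isUnit
  rw [h1]
  exact (isUnit_iff_ne_zero.2 h2).map (C : L →+* MvPolynomial (Fin s) L)

/-- the other variables are independent modulo the polynomial -/
lemma indep_others {L : Type} [Field L] {s : ℕ} {π : MvPolynomial (Fin s) L} {j : Fin s}
    (hj : degreeOf j π ≠ 0) :
    AlgebraicIndependent L (fun i : {i : Fin s // i ≠ j} =>
      (Ideal.Quotient.mkₐ L (Ideal.span {π})) (X i.1)) := by
  rw [algebraicIndependent_iff]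
  intro p hp
  have e : (aeval (fun i : {i : Fin s // i ≠ j} =>
      (Ideal.Quotient.mkₐ L (Ideal.span {π})) (X i.1)) :
        MvPolynomial {i : Fin s // i ≠ j} L →ₐ[L] _) =
      (Ideal.Quotient.mkₐ L (Ideal.span {π})).comp (rename Subtype.val) := by
    apply MvPolynomial.algHom_ext
    intro i
    simp
  rw [e, AlgHom.comp_apply, Ideal.Quotient.mkₐ_eq_mk, Ideal.Quotient.eq_zero_iff_mem,
    Ideal.mem_span_singleton] at hp
  by_contra hp0
  have hr0 : rename (Subtype.val : {i : Fin s // i ≠ j} → Fin s) p ≠ 0 := by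
    intro h
    exact hp0 ((rename_injective _ Subtype.val_injective) (by rw [h, map_zero]))
  obtain ⟨g, hg⟩ := hp
  have hπ0 : π ≠ 0 := by
    rintro rfl
    exact hj (degreeOf_zero j)
  have hg0 : g ≠ 0 := by
    rintro rfl
    rw [mul_zero] at hg
    exact hr0 hg
  have h1 : degreeOf j (rename (Subtype.val : {i : Fin s // i ≠ j} → Fin s) p) = 0 := by
    by_contra h
    have h2 := mem_vars_iff_degreeOf_ne_zero.2 h
    obtain ⟨i, _, hi⟩ := mem_vars_rename _ _ h2
    exact i.2 hi
  rw [hg, degreeOf_mul_eq hπ0 hg0] at h1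
  omega

theorem t_HYPDIM : S_HYPDIM := by
  intro L _ s π hπ
  obtain ⟨j, hj⟩ := exists_var hπ
  have hs : 0 < s := Fin.pos j
  refine ⟨s - 1, by omega, ?_⟩
  have hprime : (Ideal.span {π}).IsPrime :=
    (Ideal.span_singleton_prime hπ.ne_zero).2 hπ.prime
  have : IsDomain (MvPolynomial (Fin s) L ⧸ Ideal.span {π}) := Ideal.Quotient.isDomain _
  unfold Dim
  apply le_antisymm
  · -- the images of the variables are dependent
    set x : Fin s → (MvPolynomial (Fin s) L ⧸ Ideal.span {π}) :=
      fun i => (Ideal.Quotient.mkₐ L (Ideal.span {π})) (X i) with hx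
    have hx' : aeval x = Ideal.Quotient.mkₐ L (Ideal.span {π}) := by
      apply MvPolynomial.algHom_ext
      intro i
      simp [hx]
    have htop : ∀ a, a ∈ Algebra.adjoin L (Set.range x) := by
      intro a
      rw [Algebra.adjoin_range_eq_range_aeval, hx']
      exact Ideal.Quotient.mkₐ_surjective L _ a
    have hdep : ¬ AlgebraicIndependent L x := by
      intro h
      rw [algebraicIndependent_iff] at h
      apply hπ.ne_zero
      apply h π
      rw [hx', Ideal.Quotient.mkₐ_eq_mk, Ideal.Quotient.eq_zero_iff_mem]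
      exact Ideal.mem_span_singleton_self π
    have : Algebra.IsAlgebraic (Algebra.adjoin L (Set.range x))
        (MvPolynomial (Fin s) L ⧸ Ideal.span {π}) := by
      refine ⟨fun a => ?_⟩
      have : a = algebraMap (Algebra.adjoin L (Set.range x)) _ ⟨a, htop a⟩ := rfl
      rw [this]
      exact isAlgebraic_algebraMap _
    obtain ⟨t, ht, hbt⟩ := exists_isTranscendenceBasis_subset (R := L) (Set.range x)
    rw [← hbt.cardinalMk_eq_trdeg]
    have hfin : t.Finite := (Set.finite_range x).subset ht
    rw [← Set.cast_ncard hfin]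
    rw [Nat.cast_le]
    by_contra hcon
    have hT : s ≤ t.ncard := by omega
    have hr : (Set.range x).ncard ≤ s := by
      rw [← Set.image_univ]
      refine (Set.ncard_image_le Set.finite_univ).trans ?_
      rw [Set.ncard_univ, Nat.card_eq_fintype_card, Fintype.card_fin]
    have heq : t = Set.range x := Set.eq_of_subset_of_ncard_le ht (hr.trans hT) (Set.finite_range x)
    have hinj : Function.Injective x := by
      have h1 : (x '' Set.univ).ncard = (Set.univ : Set (Fin s)).ncard := by
        rw [Set.ncard_univ, Nat.card_eq_fintype_card, Fintype.card_fin, Set.image_univ, ← heq]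
        rw [heq] at hT ⊢
        omega
      have h2 := Set.injOn_of_ncard_image_eq h1 Set.finite_univ
      exact fun a b hab => h2 (Set.mem_univ _) (Set.mem_univ _) hab
    apply hdep
    have h3 := hbt.1.comp (fun i : Fin s => (⟨x i, by rw [heq]; exact Set.mem_range_self i⟩ : t))
      (fun a b hab => hinj (congrArg Subtype.val hab))
    exact h3
  · have h1 := (indep_others hj).cardinalMk_le_trdeg
    have h2 : Cardinal.mk {i : Fin s // i ≠ j} = ((s - 1 : ℕ) : Cardinal) := by
      rw [Cardinal.mk_fintype, Fintype.card_subtype_compl, Fintype.card_subtype_eq, Fintype.card_fin]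
    rwa [h2] at h1

end Pool.Agent.Q96.WD
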